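import Mathlib

set_option autoImplicit false

namespace Pool.Agent.Results.MP_3c8d56_co.Counter

open SimpleGraph

/-- The clique graph: vertices are the inclusion-maximal complete vertex sets, and two distinct
ones are adjacent when they share a vertex. -/
def cliqueGraph {V : Type} (G : SimpleGraph V) : SimpleGraph {s : Set V // Maximal G.IsClique s} where
  Adj s t := s ≠ t ∧ (s.1 ∩ t.1).Nonempty
  symm := ⟨fun _ _ h => ⟨h.1.symm, by rw [Set.inter_comm]; exact h.2⟩⟩
  loopless := ⟨fun _ h => h.1 rfl⟩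

/-- A triangular covering map: a homomorphism between connected graphs that restricts to an
isomorphism from each closed neighbourhood onto the closed neighbourhood of the image. -/
def IsTriCover {W V : Type} (H : SimpleGraph W) (G : SimpleGraph V) (p : W → V) : Prop :=
  H.Connected ∧ G.Connected ∧ (∀ a b, H.Adj a b → G.Adj (p a) (p b)) ∧
    ∀ v, Set.BijOn p (insert v (H.neighborSet v)) (insert (p v) (G.neighborSet (p v))) ∧
      ∀ a ∈ insert v (H.neighborSet v), ∀ b ∈ insert v (H.neighborSet v),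
        (H.Adj a b ↔ G.Adj (p a) (p b))

def eG : List (ℕ × ℕ) :=
  [(0, 1), (1, 2), (2, 3), (3, 0), (0, 4), (0, 7), (4, 7), (4, 5), (5, 6), (6, 7)]

def eH : List (ℕ × ℕ) :=
  [(0, 1), (1, 2), (2, 3), (3, 8), (0, 4), (0, 7), (4, 7), (4, 5), (5, 6), (6, 7),
   (8, 9), (9, 10), (10, 11), (11, 0), (8, 12), (8, 15), (12, 15), (12, 13), (13, 14), (14, 15)]

def adjL (e : List (ℕ × ℕ)) (u v : ℕ) : Bool := e.contains (u, v) || e.contains (v, u)

def G8 : SimpleGraph (Fin 8) where
  Adj u v := adjL eG u v = true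
  symm := ⟨by decide⟩
  loopless := ⟨by decide⟩

def H16 : SimpleGraph (Fin 16) where
  Adj u v := adjL eH u v = true
  symm := ⟨by decide +kernel⟩
  loopless := ⟨by decide⟩

instance : DecidableRel G8.Adj := fun u v => inferInstanceAs (Decidable (adjL eG u v = true))

instance : DecidableRel H16.Adj := fun u v => inferInstanceAs (Decidable (adjL eH u v = true))

def pr (v : Fin 16) : Fin 8 := ⟨v.val % 8, Nat.mod_lt _ (by norm_num)⟩

lemma maxi {V : Type} (G : SimpleGraph V) (s : Finset V) (h1 : ∀ a ∈ s, ∀ b ∈ s, a ≠ b → G.Adj a b)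
    (h2 : ∀ x, x ∉ s → ∃ a ∈ s, ¬ G.Adj a x) : Maximal G.IsClique (s : Set V) := by
  refine ⟨fun a ha b hb hab => h1 a ha b hb hab, fun t ht hst x hx => ?_⟩
  by_contra hxs
  obtain ⟨a, ha, hn⟩ := h2 x hxs
  exact hn (ht (hst ha) hx (fun e => hxs (e ▸ ha)))

def C : Fin 8 → Finset (Fin 8) :=
  ![{0, 4, 7}, {4, 5}, {5, 6}, {6, 7}, {0, 1}, {1, 2}, {2, 3}, {3, 0}]

def CM (i : Fin 8) : {s : Set (Fin 8) // Maximal G8.IsClique s} :=
  ⟨(C i : Set (Fin 8)), maxi G8 (C i) (by revert i; decide +kernel) (by revert i; decide +kernel)⟩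

lemma C_inj : ∀ i j, C i = C j → i = j := by decide +kernel

lemma C_all : ∀ s : Finset (Fin 8), (∀ a ∈ s, ∀ b ∈ s, a ≠ b → G8.Adj a b) → ∃ i, s ⊆ C i := by
  decide +kernel

lemma C_adj : ∀ i j, (i ≠ j ∧ ∃ x, x ∈ C i ∧ x ∈ C j) ↔ G8.Adj i j := by decide +kernel

lemma CM_inj : Function.Injective CM := fun i j h =>
  C_inj i j (Finset.coe_injective (congrArg Subtype.val h))

lemma CM_surj : Function.Surjective CM := by
  classical
  rintro ⟨s, hs⟩
  obtain ⟨i, hi⟩ := C_all s.toFinset (fun a ha b hb hab =>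
    hs.1 (Set.mem_toFinset.mp ha) (Set.mem_toFinset.mp hb) hab)
  have h1 : s ⊆ (C i : Set (Fin 8)) := fun x hx => hi (Set.mem_toFinset.mpr hx)
  exact ⟨i, Subtype.ext (Set.Subset.antisymm (hs.2 (CM i).2.1 h1) h1)⟩

def D : Fin 6 → Finset (Fin 16) := ![{0, 4, 7}, {4, 5}, {6, 7}, {0, 1}, {0, 11}, {5, 6}]

def DM (i : Fin 6) : {s : Set (Fin 16) // Maximal H16.IsClique s} :=
  ⟨(D i : Set (Fin 16)), maxi H16 (D i) (by revert i; decide +kernel) (by revert i; decide +kernel)⟩

lemma D_inj : ∀ i j, D i = D j → i = j := by decide +kernel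

lemma DM_ne {i j : Fin 6} (h : i ≠ j) : DM i ≠ DM j := fun e =>
  h (D_inj i j (Finset.coe_injective (congrArg Subtype.val e)))

lemma DM_adj {i j : Fin 6} (h : i ≠ j) (x : Fin 16) (h1 : x ∈ D i) (h2 : x ∈ D j) :
    (cliqueGraph H16).Adj (DM i) (DM j) := ⟨DM_ne h, x, h1, h2⟩

set_option synthInstance.maxSize 2000 in
lemma noconf : ∀ b a1 : Fin 16, H16.Adj b a1 → ∀ a2, H16.Adj b a2 → a1 ≠ a2 → ∀ z, H16.Adj z a1 →
    H16.Adj z a2 → z ≠ b → ∀ a3, H16.Adj b a3 → a1 ≠ a3 → a2 ≠ a3 → ∀ a4, H16.Adj b a4 →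
    a1 ≠ a4 → a2 ≠ a4 → a3 ≠ a4 → False := by
  decide +kernel

lemma reach {n : ℕ} (G : SimpleGraph (Fin (n + 1)))
    (h : ∀ v : Fin (n + 1), v ≠ 0 → ∃ u, u < v ∧ G.Adj u v) : G.Connected := by
  have key : ∀ k : ℕ, ∀ v : Fin (n + 1), v.val ≤ k → G.Reachable 0 v := by
    intro k
    induction k with
    | zero =>
      intro v hv
      have : v = 0 := Fin.ext (by simpa using hv)
      rw [this]
    | succ k ih =>
      intro v hv
      by_cases h0 : v = 0
      · rw [h0]
      · obtain ⟨u, hu, ha⟩ := h v h0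
        exact (ih u (by have : u.val < v.val := hu; omega)).trans ha.reachable
  exact ⟨fun u v => (key _ u le_rfl).symm.trans (key _ v le_rfl)⟩

theorem result :
    ∃ (H : SimpleGraph (Fin 16)) (G : SimpleGraph (Fin 8)) (p : Fin 16 → Fin 8),
      IsTriCover H G p ∧ Nonempty (cliqueGraph G ≃g G) ∧ IsEmpty (cliqueGraph H ≃g H) := by
  refine ⟨H16, G8, pr, ⟨reach _ (by decide +kernel), reach _ (by decide +kernel),
    by decide +kernel, fun v => ⟨⟨?_, ?_, ?_⟩, ?_⟩⟩, ⟨Iso.symm ⟨Equiv.ofBijective CM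
      ⟨CM_inj, CM_surj⟩, ?_⟩⟩, ⟨fun e => ?_⟩⟩
  · intro a
    simp only [Set.mem_insert_iff, mem_neighborSet]
    revert v a; decide +kernel
  · intro a ha b hb
    simp only [Set.mem_insert_iff, mem_neighborSet] at ha hb
    revert v a b
    have : ∀ v a : Fin 16, (a = v ∨ H16.Adj v a) → ∀ b, (b = v ∨ H16.Adj v b) → pr a = pr b →
      a = b := by decide +kernel
    exact fun v a b ha hb => this v a ha b hb
  · intro y
    simp only [Set.mem_insert_iff, mem_neighborSet, Set.mem_image]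
    revert v y; decide +kernel
  · simp only [Set.mem_insert_iff, mem_neighborSet]
    revert v; decide +kernel
  · intro i j
    rw [← C_adj]
    exact and_congr CM_inj.ne_iff Iff.rfl
  · have ha : ∀ {i j : Fin 6}, i ≠ j → ∀ x, x ∈ D i → x ∈ D j → H16.Adj (e (DM i)) (e (DM j)) :=
      fun h x h1 h2 => e.map_rel_iff.mpr (DM_adj h x h1 h2)
    have hn : ∀ {i j : Fin 6}, i ≠ j → e (DM i) ≠ e (DM j) :=
      fun h q => DM_ne h (e.injective q)
    exact noconf (e (DM 0)) (e (DM 1)) (ha (by decide) 4 (by decide) (by decide)) (e (DM 2))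
      (ha (by decide) 7 (by decide) (by decide)) (hn (by decide)) (e (DM 5))
      (ha (by decide) 5 (by decide) (by decide)) (ha (by decide) 6 (by decide) (by decide))
      (hn (by decide)) (e (DM 3)) (ha (by decide) 0 (by decide) (by decide)) (hn (by decide))
      (hn (by decide)) (e (DM 4)) (ha (by decide) 0 (by decide) (by decide)) (hn (by decide))
      (hn (by decide)) (hn (by decide))

end Pool.Agent.Results.MP_3c8d56_co.Counter
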